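import Pool.Agent.Helper5.KPA.StP

/-! Module MRN of project KP. -/

set_option autoImplicit false

namespace Pool.Agent.Helper24.KPA

open Pool.Agent.Helper5.KPA Pool.Agent.Helper52.KP MvPolynomial Filter Topology

private lemma small (d : ℕ) (h : ℕ → ℝ) (α γ : ℝ) (hA : Asy (d + 1) h α γ) :
    Tendsto (fun k : ℕ => (h k - (α * (k : ℝ) ^ (d + 1) + γ * (k : ℝ) ^ d)) / (k : ℝ) ^ d) atTop
      (𝓝 0) := by
  obtain ⟨K, hK⟩ := hA
  refine squeeze_zero_norm' ?_ (tendsto_const_div_atTop_nhds_zero_nat K)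
  filter_upwards [eventually_ge_atTop 1] with k hk
  have hk0 : (0 : ℝ) < k := by exact_mod_cast hk
  have h1 := hK k hk
  simp only [Nat.add_sub_cancel] at h1
  have hp : (0 : ℝ) < (k : ℝ) ^ d := pow_pos hk0 d
  rw [Real.norm_eq_abs, abs_div, abs_of_pos hp, div_le_div_iff₀ hp hk0]
  have h2 : |h k - (α * (k : ℝ) ^ (d + 1) + γ * (k : ℝ) ^ d)| * (k : ℝ) * k ≤ K * (k : ℝ) ^ d * k := by
    calc |h k - (α * (k : ℝ) ^ (d + 1) + γ * (k : ℝ) ^ d)| * (k : ℝ) * k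
        = |h k - (α * (k : ℝ) ^ (d + 1) + γ * (k : ℝ) ^ d)| * (k : ℝ) ^ 2 := by ring
      _ ≤ K * (k : ℝ) ^ (d + 1) := h1
      _ = K * (k : ℝ) ^ d * k := by ring
  exact le_of_mul_le_mul_right h2 hk0

theorem hMRN : StMRN := by
  intro e r a₀ a₁ D N he hr hN hD hDN
  obtain ⟨d, rfl⟩ : ∃ d, e = d + 1 := ⟨e - 1, by omega⟩
  have hr0 : (0 : ℝ) < r := by exact_mod_cast hr
  have sN := small d N a₀ a₁ hN
  have sD := small d D a₀ (-a₁) hD
  have sN1 := (tendsto_add_atTop_iff_nat 1).mpr sN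
  have sD1 := (tendsto_add_atTop_iff_nat 1).mpr sD
  have hq : Tendsto (fun k : ℕ => (k : ℝ) / ((k : ℝ) + 1)) atTop (𝓝 1) :=
    tendsto_natCast_div_add_atTop (1 : ℝ)
  -- the right side
  have hR : Tendsto (fun k : ℕ => (N (k + 1) - D (k + 1)) / ((k + 1 : ℕ) : ℝ) ^ d) atTop
      (𝓝 (2 * a₁)) := by
    have h1 : Tendsto (fun k : ℕ => 2 * a₁ +
        ((N (k + 1) - (a₀ * ((k + 1 : ℕ) : ℝ) ^ (d + 1) + a₁ * ((k + 1 : ℕ) : ℝ) ^ d)) /
          ((k + 1 : ℕ) : ℝ) ^ d -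
        (D (k + 1) - (a₀ * ((k + 1 : ℕ) : ℝ) ^ (d + 1) + -a₁ * ((k + 1 : ℕ) : ℝ) ^ d)) /
          ((k + 1 : ℕ) : ℝ) ^ d)) atTop (𝓝 (2 * a₁ + (0 - 0))) :=
      tendsto_const_nhds.add (sN1.sub sD1)
    rw [sub_zero, add_zero] at h1
    refine h1.congr fun k => ?_
    have hp : ((k + 1 : ℕ) : ℝ) ^ d ≠ 0 := by positivity
    field_simp
    ring
  -- the left side
  have hL : Tendsto (fun k : ℕ => (N (k + 1) - N k) / r / ((k + 1 : ℕ) : ℝ) ^ d) atTop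
      (𝓝 (((d + 1 : ℕ) : ℝ) * a₀ / r)) := by
    have g1 : Tendsto (fun k : ℕ => a₀ * ∑ i ∈ Finset.range (d + 1), ((k : ℝ) / ((k : ℝ) + 1)) ^ i)
        atTop (𝓝 (a₀ * ∑ i ∈ Finset.range (d + 1), (1 : ℝ) ^ i)) :=
      tendsto_const_nhds.mul (tendsto_finsetSum _ fun i _ => hq.pow i)
    have g2 : Tendsto (fun k : ℕ => a₁ * (1 - ((k : ℝ) / ((k : ℝ) + 1)) ^ d)) atTop
        (𝓝 (a₁ * (1 - 1 ^ d))) :=
      tendsto_const_nhds.mul (tendsto_const_nhds.sub (hq.pow d))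
    have g3 : Tendsto (fun k : ℕ =>
        (N k - (a₀ * (k : ℝ) ^ (d + 1) + a₁ * (k : ℝ) ^ d)) / (k : ℝ) ^ d *
          ((k : ℝ) / ((k : ℝ) + 1)) ^ d) atTop (𝓝 (0 * 1 ^ d)) := sN.mul (hq.pow d)
    have g4 := (((g1.add g2).add sN1).sub g3).div_const (r : ℝ)
    have e1 : (a₀ * ∑ i ∈ Finset.range (d + 1), (1 : ℝ) ^ i + a₁ * (1 - 1 ^ d) + 0 - 0 * 1 ^ d) /
        (r : ℝ) = ((d + 1 : ℕ) : ℝ) * a₀ / r := by
      simp [mul_comm]
    rw [e1] at g4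
    refine g4.congr' ?_
    filter_upwards [eventually_ge_atTop 1] with k hk
    have hk0 : (0 : ℝ) < k := by exact_mod_cast hk
    have hk1 : (k : ℝ) + 1 ≠ 0 := by positivity
    have hp : (k : ℝ) ^ d ≠ 0 := by positivity
    have hp1 : ((k : ℝ) + 1) ^ d ≠ 0 := by positivity
    have hgs : ∑ i ∈ Finset.range (d + 1), ((k : ℝ) / ((k : ℝ) + 1)) ^ i =
        ((k : ℝ) + 1) * (1 - ((k : ℝ) / ((k : ℝ) + 1)) ^ (d + 1)) := by
      have h := mul_geom_sum ((k : ℝ) / ((k : ℝ) + 1)) (d + 1)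
      have h2 : (k : ℝ) / ((k : ℝ) + 1) - 1 = -(1 / ((k : ℝ) + 1)) := by
        field_simp
        ring
      rw [h2] at h
      have h3 : ∑ i ∈ Finset.range (d + 1), ((k : ℝ) / ((k : ℝ) + 1)) ^ i =
          -((k : ℝ) + 1) * (-(1 / ((k : ℝ) + 1)) *
            ∑ i ∈ Finset.range (d + 1), ((k : ℝ) / ((k : ℝ) + 1)) ^ i) := by
        field_simp
      rw [h3, h]
      ring
    rw [hgs, div_pow, div_pow]
    push_cast
    rw [div_div, div_eq_div_iff (by positivity) (by positivity)]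
    field_simp
    ring
  refine le_of_tendsto_of_tendsto hL hR ?_
  filter_upwards with k
  have hp : (0 : ℝ) < ((k + 1 : ℕ) : ℝ) ^ d := by positivity
  have h1 := hDN (k + 1) (by omega)
  rw [Nat.add_sub_cancel] at h1
  exact div_le_div_of_nonneg_right (by linarith) hp.le

end Pool.Agent.Helper24.KPA
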